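import Mathlib
import Pool.Agent.H47.Meadow

namespace Pool.Agent.Results.MP_f888fa_lc.FiniteBasis
open Pool.Agent.H47.Meadow

/-- The numeral `1 + 1 + ... + 1` with `n` ones, bracketed to the left (`num 0 = 0`). -/
def num : ℕ → Tm
  | 0 => .zero
  | 1 => .one
  | n + 2 => .add (num (n + 1)) .one

/-- The conditional equation `(0/2)(0/3) = (0/2)(0/p) → 0/3 = 0/p`. -/
def phi (p : ℕ) : CondEq where
  hyps := [(.mul (.div .zero (num 2)) (.div .zero (num 3)),
    .mul (.div .zero (num 2)) (.div .zero (num p)))]
  concl := (.div .zero (num 3), .div .zero (num p))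

def odd (n : ℕ) : Tm := .add (.add (.var n) (.var n)) .one

def psi : CondEq where
  hyps := [(.mul (.div .zero (num 2)) (.div .zero (odd 0)),
    .mul (.div .zero (num 2)) (.div .zero (odd 1))),
    (.mul .zero (.var 0), .zero), (.mul .zero (.var 1), .zero)]
  concl := (.div .zero (odd 0), .div .zero (odd 1))

def eAssoc : CondEq :=
  ⟨[], (.add (.var 0) (.add (.var 1) (.var 2)), .add (.add (.var 0) (.var 1)) (.var 2))⟩
def eSucc : CondEq := ⟨[], (.mul .zero (.add (.var 0) .one), .mul .zero (.var 0))⟩
def eOne : CondEq := ⟨[], (.mul .zero .one, .zero)⟩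

universe u v

lemma psi_valid (F : Type u) [Field F] : (enl F).Sat psi := by
  intro v h
  have h1 := h _ List.mem_cons_self
  have h2 := h _ (List.mem_cons_of_mem _ List.mem_cons_self)
  have h3 := h _ (List.mem_cons_of_mem _ (List.mem_cons_of_mem _ List.mem_cons_self))
  simp only [psi, Tm.eval, odd, num] at h1 h2 h3 ⊢
  rcases ha : v 0 with _ | a
  · simp [ha, enl] at h2
  rcases hc : v 1 with _ | c
  · simp [hc, enl] at h3
  rw [ha, hc] at h1
  by_cases h2' : (1 + 1 : F) = 0
  · have e1 : a + a + 1 = 1 := by linear_combination a * h2'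
    have e2 : c + c + 1 = 1 := by linear_combination c * h2'
    simp [enl, e1, e2]
  · by_cases h4 : a + a + 1 = 0 <;> by_cases h5 : c + c + 1 = 0 <;>
      simp_all [enl]

theorem result : ∃ E : List CondEq,
    (∀ ψ ∈ E, ∀ (F : Type u) [Field F], (enl F).Sat ψ) ∧
    ∀ p : ℕ, p.Prime → 5 ≤ p →
      ∀ (A : Type v) (M : Alg A), (∀ ψ ∈ E, M.Sat ψ) → M.Sat (phi p) := by
  refine ⟨[psi, eAssoc, eSucc, eOne], ?_, ?_⟩
  · intro ψ hψ F _
    simp only [List.mem_cons, List.not_mem_nil, or_false] at hψ
    rcases hψ with rfl | rfl | rfl | rfl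
    · exact psi_valid F
    · intro v _
      simp only [eAssoc, Tm.eval]
      rcases v 0 with _ | a <;> rcases v 1 with _ | b <;> rcases v 2 with _ | c <;>
        simp [enl, add_assoc]
    · intro v _
      simp only [eSucc, Tm.eval]
      rcases v 0 with _ | a <;> simp [enl]
    · intro v _
      simp [eOne, Tm.eval, enl]
  · intro p hp h5 A M hE v hv
    have hpsi := hE psi (by simp)
    have hass : ∀ a b c, M.add a (M.add b c) = M.add (M.add a b) c := fun a b c => by
      have := hE eAssoc (by simp) (fun n => if n = 0 then a else if n = 1 then b else c)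
        (by simp [eAssoc])
      simpa [eAssoc, Tm.eval] using this
    have hsucc : ∀ a, M.mul M.zero (M.add a M.one) = M.mul M.zero a := fun a => by
      have := hE eSucc (by simp) (fun _ => a) (by simp [eSucc])
      simpa [eSucc, Tm.eval] using this
    have hone : M.mul M.zero M.one = M.zero := by
      have := hE eOne (by simp) v (by simp [eOne])
      simpa [eOne, Tm.eval] using this
    set N : ℕ → A := fun n => (num (n + 1)).eval M v with hN
    have hN0 : N 0 = M.one := rfl
    have hNs : ∀ n, N (n + 1) = M.add (N n) M.one := fun n => rfl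
    have hadd : ∀ m n, M.add (N m) (N n) = N (m + n + 1) := by
      intro m n
      induction n with
      | zero => rfl
      | succ n ih => rw [hNs, hass, ih]; rfl
    have hz : ∀ n, M.mul M.zero (N n) = M.zero := by
      intro n
      induction n with
      | zero => exact hone
      | succ n ih => rw [hNs, hsucc, ih]
    obtain ⟨k, hk⟩ : ∃ k, p = 2 * k + 3 := by
      have := hp.eq_two_or_odd
      exact ⟨(p - 3) / 2, by omega⟩
    have hp' : (num p).eval M v = M.add (M.add (N k) (N k)) M.one := by
      rw [hadd, ← hNs, hk, show 2 * k + 3 = k + k + 1 + 1 + 1 by ring]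
    have h3 : (num 3).eval M v = M.add (M.add (N 0) (N 0)) M.one := rfl
    have h1 := hv _ List.mem_cons_self
    have := hpsi (fun n => if n = 0 then N 0 else N k) (by
      intro e he
      simp only [psi, List.mem_cons, List.not_mem_nil, or_false] at he
      rcases he with rfl | rfl | rfl
      · simp only [Tm.eval, hp', h3] at h1
        simpa [Tm.eval, odd, num] using h1
      · simpa [Tm.eval] using hz 0
      · simpa [Tm.eval] using hz k)
    simp only [phi, Tm.eval, hp', h3]
    simpa [psi, Tm.eval, odd] using this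

end Pool.Agent.Results.MP_f888fa_lc.FiniteBasis
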